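import Pool.Agent.Helper5.ST.GoalsA

set_option autoImplicit false

namespace Pool.Agent.Helper67.ST

open Pool.Agent.Helper5.Gap Pool.Agent.Helper5.ST Filter Topology
open scoped InnerProductSpace commutatorElement

universe u

section proj
variable {V : Type u} [NormedAddCommGroup V] [InnerProductSpace ℝ V] (E : Submodule ℝ V)
  [FiniteDimensional ℝ E]

theorem proj_sq (x : V) :
    ‖x‖ ^ 2 = ‖E.starProjection x‖ ^ 2 + ‖x - E.starProjection x‖ ^ 2 := by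
  have := Submodule.norm_sq_eq_add_norm_sq_starProjection x E
  rwa [Submodule.starProjection_orthogonal_val] at this

theorem co_le (x : V) : ‖x - E.starProjection x‖ ≤ ‖x‖ := by
  have h := proj_sq E x
  have h1 : 0 ≤ ‖E.starProjection x‖ ^ 2 := sq_nonneg _
  exact le_of_sq_le_sq (by linarith) (norm_nonneg _)

theorem inner_co (x : V) :
    ⟪x, x - E.starProjection x⟫_ℝ = ‖x - E.starProjection x‖ ^ 2 := by
  have h1 : ⟪E.starProjection x, x - E.starProjection x⟫_ℝ = 0 :=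
    Submodule.inner_right_of_mem_orthogonal (Submodule.starProjection_apply_mem E x)
      (Submodule.sub_starProjection_mem_orthogonal (K := E) x)
  rw [← real_inner_self_eq_norm_sq, inner_sub_left (𝕜 := ℝ) x (E.starProjection x), h1, sub_zero]

end proj

theorem key (hcs : SHelCS.{u}) (hinvt : SInvt.{u}) (hmom : SMom.{u})
    (G : Type u) [Group G] (w : Walk G) (V : Type u) [NormedAddCommGroup V]
    [InnerProductSpace ℝ V] (π : G →* (V ≃ₗᵢ[ℝ] V)) (ξ : V) (τ : ℝ) (hτ : 0 ≤ τ)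
    (hxi : IsXi w π ξ τ) (n d : ℕ) (E : Submodule ℝ V) [FiniteDimensional ℝ E] (θ : ℝ)
    (hd : 1 ≤ d) (hn1 : 1 ≤ n) (hkn : w.k ≤ n)
    (hnτ : (n : ℝ) * τ ≤ 1 / 100) (hHel : (n : ℝ) * w.Hel n ≤ d)
    (hθ : θ ≤ 1 / (80 * d))
    (hE : ∀ v ∈ Eᗮ, w.mean n (fun g => ⟪coc π ξ g, v⟫_ℝ ^ 2) ≤ n * θ * ‖v‖ ^ 2) (i : w.I)
    (y : V) (hy : y ∈ Eᗮ)
    (hwy : ⟪w.mean n (fun g => coc π ξ (w.s i * g)) - w.mean (n + 1) (coc π ξ), y⟫_ℝ
      = ‖y‖ ^ 2) :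
    ‖y‖ ^ 2 ≤ w.hel n i * (20 * w.k + n / (10 * d) + 800 * w.k * √(d * n)) := by
  have hk := w.k1
  obtain ⟨m1, m2, -, -, -⟩ := hmom G w V π ξ τ hτ hxi
  have hd' : (1 : ℝ) ≤ d := by exact_mod_cast hd
  have hn' : (1 : ℝ) ≤ n := by exact_mod_cast hn1
  have inv := hinvt G w V π ξ τ hτ hxi n d hd' hn1 hnτ hkn hHel
  set b := coc π ξ with hb
  have hyy : 0 ≤ ‖y‖ ^ 2 := sq_nonneg _
  -- the mean of ⟨b, y⟩²
  have hA : w.mean n (fun g => ⟪b g, y⟫_ℝ ^ 2) ≤ n / (80 * d) * ‖y‖ ^ 2 := by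
    refine (hE y hy).trans ?_
    refine mul_le_mul_of_nonneg_right ?_ hyy
    calc (n : ℝ) * θ ≤ n * (1 / (80 * d)) := by gcongr
      _ = n / (80 * d) := by ring
  have hA0 : 0 ≤ w.mean n (fun g => ⟪b g, y⟫_ℝ ^ 2) := w.mean_nonneg fun g _ => sq_nonneg _
  -- first mean
  have hB : w.mean n (fun g => ⟪b (w.s i * g), y⟫_ℝ ^ 2) ≤
      (8 * w.k + 2 * (n / (80 * d)) + 400 * w.k * √(d * n)) * ‖y‖ ^ 2 := by
    have h1 : w.mean n (fun g => ⟪b (w.s i * g), y⟫_ℝ ^ 2) ≤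
        w.mean n (fun g => 2 * ⟪b (w.s i), y⟫_ℝ ^ 2 + 2 * ⟪b g, π (w.s (w.inv i)) y⟫_ℝ ^ 2) := by
      refine w.mean_mono fun g _ => ?_
      have e1 : b (w.s i * g) = b (w.s i) + π (w.s i) (b g) := Walk.coc_mul π ξ _ _
      have e2 : ⟪π (w.s i) (b g), y⟫_ℝ = ⟪b g, π (w.s (w.inv i)) y⟫_ℝ := by
        rw [w.s_inv]; exact Walk.inner_rep_left π _ _ _
      rw [e1, inner_add_left, e2]
      nlinarith [sq_nonneg (⟪b (w.s i), y⟫_ℝ - ⟪b g, π (w.s (w.inv i)) y⟫_ℝ)]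
    rw [w.mean_add, w.mean_const, w.mean_const_mul] at h1
    have h2 : ⟪b (w.s i), y⟫_ℝ ^ 2 ≤ 4 * w.k * ‖y‖ ^ 2 := by
      have := abs_real_inner_le_norm (b (w.s i)) y
      calc ⟪b (w.s i), y⟫_ℝ ^ 2 = |⟪b (w.s i), y⟫_ℝ| ^ 2 := (sq_abs _).symm
        _ ≤ (‖b (w.s i)‖ * ‖y‖) ^ 2 := by gcongr
        _ = ‖b (w.s i)‖ ^ 2 * ‖y‖ ^ 2 := by ring
        _ ≤ _ := mul_le_mul_of_nonneg_right (m1 i) hyy
    have h3 := (abs_le.1 (inv (w.inv i) y)).2
    nlinarith [h1, h2, h3, hA]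
  -- second mean
  have hC : w.mean (n + 1) (fun g => ⟪b g, y⟫_ℝ ^ 2) ≤
      (2 * (n / (80 * d)) + 2) * ‖y‖ ^ 2 := by
    rw [w.mean_succ']
    have h1 : w.mean n (fun g => ∑ j, w.p j • (⟪b (g * w.s j), y⟫_ℝ ^ 2)) ≤
        w.mean n (fun g => 2 * ⟪b g, y⟫_ℝ ^ 2 + 2 * ‖y‖ ^ 2) := by
      refine w.mean_mono fun g _ => ?_
      have h2 : ∀ j, w.p j • (⟪b (g * w.s j), y⟫_ℝ ^ 2) ≤
          w.p j * (2 * ⟪b g, y⟫_ℝ ^ 2) + (w.p j * ‖b (w.s j)‖ ^ 2) * (2 * ‖y‖ ^ 2) := by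
        intro j
        have e1 : b (g * w.s j) = b g + π g (b (w.s j)) := Walk.coc_mul π ξ _ _
        rw [e1, inner_add_left, smul_eq_mul]
        have h3 : ⟪π g (b (w.s j)), y⟫_ℝ ^ 2 ≤ ‖b (w.s j)‖ ^ 2 * ‖y‖ ^ 2 := by
          have := abs_real_inner_le_norm (π g (b (w.s j))) y
          rw [Walk.norm_rep] at this
          calc ⟪π g (b (w.s j)), y⟫_ℝ ^ 2 = |⟪π g (b (w.s j)), y⟫_ℝ| ^ 2 := (sq_abs _).symm
            _ ≤ (‖b (w.s j)‖ * ‖y‖) ^ 2 := by gcongr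
            _ = _ := by ring
        have h4 : (⟪b g, y⟫_ℝ + ⟪π g (b (w.s j)), y⟫_ℝ) ^ 2 ≤
            2 * ⟪b g, y⟫_ℝ ^ 2 + ‖b (w.s j)‖ ^ 2 * (2 * ‖y‖ ^ 2) := by
          nlinarith [sq_nonneg (⟪b g, y⟫_ℝ - ⟪π g (b (w.s j)), y⟫_ℝ)]
        calc w.p j * (⟪b g, y⟫_ℝ + ⟪π g (b (w.s j)), y⟫_ℝ) ^ 2
            ≤ w.p j * (2 * ⟪b g, y⟫_ℝ ^ 2 + ‖b (w.s j)‖ ^ 2 * (2 * ‖y‖ ^ 2)) :=
              mul_le_mul_of_nonneg_left h4 (w.p_nonneg j)
          _ = _ := by ring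
      refine (Finset.sum_le_sum fun j _ => h2 j).trans ?_
      rw [Finset.sum_add_distrib, ← Finset.sum_mul, ← Finset.sum_mul, w.p_sum, m2]
      linarith
    rw [w.mean_add, w.mean_const, w.mean_const_mul] at h1
    nlinarith [h1, hA]
  -- Cauchy–Schwarz
  have hCS := hcs G (w.B (n + 1)) (fun g => w.mu n ((w.s i)⁻¹ * g)) (fun g => w.mu (n + 1) g)
    (fun g => ⟪b g, y⟫_ℝ) (fun g _ => w.mu_nonneg _ _) (fun g _ => w.mu_nonneg _ _)
  have e1 : ∑ g ∈ w.B (n + 1), (w.mu n ((w.s i)⁻¹ * g) - w.mu (n + 1) g) * ⟪b g, y⟫_ℝ =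
      ‖y‖ ^ 2 := by
    rw [← hwy, w.mean_translate b i (Finset.Subset.refl _),
      w.mean_eq_sum b (Finset.Subset.refl _), ← Finset.sum_sub_distrib, sum_inner]
    refine Finset.sum_congr rfl fun g _ => ?_
    rw [← sub_smul, real_inner_smul_left]
  have e2 : ∑ g ∈ w.B (n + 1), (w.mu n ((w.s i)⁻¹ * g) + w.mu (n + 1) g) * ⟪b g, y⟫_ℝ ^ 2 =
      w.mean n (fun g => ⟪b (w.s i * g), y⟫_ℝ ^ 2) +
      w.mean (n + 1) (fun g => ⟪b g, y⟫_ℝ ^ 2) := by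
    rw [w.mean_translate (fun g => ⟪b g, y⟫_ℝ ^ 2) i (Finset.Subset.refl _),
      w.mean_eq_sum (fun g => ⟪b g, y⟫_ℝ ^ 2) (Finset.Subset.refl _), ← Finset.sum_add_distrib]
    refine Finset.sum_congr rfl fun g _ => ?_
    simp only [smul_eq_mul]
    ring
  have e3 : ∑ g ∈ w.B (n + 1), (√(w.mu n ((w.s i)⁻¹ * g)) - √(w.mu (n + 1) g)) ^ 2 =
      w.hel n i := rfl
  rw [e1, e2, e3] at hCS
  have hh : 0 ≤ w.hel n i := by
    rw [← e3]; exact Finset.sum_nonneg fun g _ => sq_nonneg _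
  have hs : 0 ≤ √((d : ℝ) * n) := Real.sqrt_nonneg _
  have hbound : 2 * (w.mean n (fun g => ⟪b (w.s i * g), y⟫_ℝ ^ 2) +
      w.mean (n + 1) (fun g => ⟪b g, y⟫_ℝ ^ 2)) ≤
      (20 * w.k + n / (10 * d) + 800 * w.k * √(d * n)) * ‖y‖ ^ 2 := by
    have h1 : 2 * (w.mean n (fun g => ⟪b (w.s i * g), y⟫_ℝ ^ 2) +
      w.mean (n + 1) (fun g => ⟪b g, y⟫_ℝ ^ 2)) ≤
      (16 * w.k + 4 + 8 * (n / (80 * d)) + 800 * w.k * √(d * n)) * ‖y‖ ^ 2 := by
      nlinarith [hB, hC]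
    refine h1.trans (mul_le_mul_of_nonneg_right ?_ hyy)
    have : 8 * ((n : ℝ) / (80 * d)) = n / (10 * d) := by
      field_simp
      norm_num
    linarith
  have hfin : (‖y‖ ^ 2) ^ 2 ≤
      w.hel n i * (20 * w.k + n / (10 * d) + 800 * w.k * √(d * n)) * ‖y‖ ^ 2 := by
    calc (‖y‖ ^ 2) ^ 2 ≤ _ := hCS
      _ ≤ w.hel n i * ((20 * w.k + n / (10 * d) + 800 * w.k * √(d * n)) * ‖y‖ ^ 2) :=
        mul_le_mul_of_nonneg_left hbound hh
      _ = _ := by ring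
  rcases hyy.eq_or_lt with h0 | h0
  · rw [← h0]
    have : 0 ≤ (n : ℝ) / (10 * d) := by positivity
    have hk0 : 0 ≤ w.k := by linarith
    positivity
  · rw [sq (‖y‖ ^ 2)] at hfin
    exact le_of_mul_le_mul_right hfin h0

theorem en (hcs : SHelCS.{u}) (hmom : SMom.{u}) (hinvt : SInvt.{u}) (hws : SWs.{u}) :
    SEn.{u} := by
  intro G _ w V _ _ π ξ τ hτ hxi n d E _ θ hd hnτ hn hHel hθ hE
  have hk := w.k1
  have hk0 : 0 < w.k := w.k_pos
  have hd' : (1 : ℝ) ≤ d := by exact_mod_cast hd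
  have hk2 : 1 ≤ w.k ^ 2 := one_le_pow₀ hk
  have hd3 : (1 : ℝ) ≤ (d : ℝ) ^ 3 := one_le_pow₀ hd'
  have hkd : w.k ^ 2 ≤ w.k ^ 2 * (d : ℝ) ^ 3 := le_mul_of_one_le_right (by positivity) hd3
  have hkk : w.k ≤ w.k ^ 2 := by nlinarith
  have hnbig : (1 : ℝ) ≤ n := by nlinarith
  have hn1 : 1 ≤ n := by exact_mod_cast hnbig
  have hkn : w.k ≤ n := by nlinarith
  have hτ1 : τ ≤ 1 / 100 := by nlinarith
  have hn0 : (0 : ℝ) < n := by linarith
  obtain ⟨m1, m2, -, -, -⟩ := hmom G w V π ξ τ hτ hxi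
  have hW := hws G w V π ξ τ hτ (by linarith) hxi n
  set wi : w.I → V := fun i =>
    w.mean n (fun g => coc π ξ (w.s i * g)) - w.mean (n + 1) (coc π ξ) with hwi
  set C : ℝ := 20 * w.k + n / (10 * d) + 800 * w.k * √(d * n) with hC
  have hkey : ∀ i, ‖wi i - E.starProjection (wi i)‖ ^ 2 ≤ w.hel n i * C := by
    intro i
    exact key hcs hinvt hmom G w V π ξ τ hτ hxi n d E θ hd hn1 hkn hnτ hHel hθ hE i
      (wi i - E.starProjection (wi i)) (Submodule.sub_starProjection_mem_orthogonal _)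
      (inner_co E (wi i))
  have hs0 : 0 ≤ √((d : ℝ) * n) := Real.sqrt_nonneg _
  have hssq : √((d : ℝ) * n) ^ 2 = d * n := Real.sq_sqrt (by positivity)
  have hC0 : 0 ≤ C := by
    have : 0 ≤ (n : ℝ) / (10 * d) := by positivity
    have : 0 ≤ 800 * w.k * √(d * n) := by positivity
    linarith
  -- C d ≤ 0.101 n
  have hCd : C * d ≤ 101 / 1000 * n := by
    have h1 : 20 * w.k * d ≤ n / 10 ^ 6 := by
      have : w.k * d ≤ w.k ^ 2 * (d : ℝ) ^ 3 := by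
        have h2 : (d : ℝ) ≤ (d : ℝ) ^ 3 := by
          calc (d : ℝ) = d ^ 1 := (pow_one _).symm
            _ ≤ (d : ℝ) ^ 3 := pow_le_pow_right₀ hd' (by norm_num)
        exact mul_le_mul hkk h2 (by positivity) (by positivity)
      nlinarith
    have h2 : (n : ℝ) / (10 * d) * d = n / 10 := by field_simp
    have h3 : w.k * √(d * n) * d ≤ n / 10 ^ 6 := by
      apply le_of_sq_le_sq _ (by positivity)
      calc (w.k * √(d * n) * d) ^ 2 = w.k ^ 2 * √(d * n) ^ 2 * (d : ℝ) ^ 2 := by ring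
        _ = (w.k ^ 2 * (d : ℝ) ^ 3) * n := by rw [hssq]; ring
        _ ≤ (n / 10 ^ 12) * n := by
          refine mul_le_mul_of_nonneg_right ?_ hn0.le
          rw [le_div_iff₀ (by norm_num)]
          linarith
        _ = (n / 10 ^ 6) ^ 2 := by ring
    calc C * d = 20 * w.k * d + n / (10 * d) * d + 800 * (w.k * √(d * n) * d) := by
          rw [hC]; ring
      _ ≤ n / 10 ^ 6 + n / 10 + 800 * (n / 10 ^ 6) := by rw [h2]; linarith
      _ ≤ 101 / 1000 * n := by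
        have : (n : ℝ) / 10 ^ 6 + n / 10 + 800 * (n / 10 ^ 6) =
          (1 / 10 ^ 6 + 1 / 10 + 800 / 10 ^ 6) * n := by ring
        rw [this]
        refine mul_le_mul_of_nonneg_right ?_ hn0.le
        norm_num
  have hsum1 : ∑ i, w.p i * ‖wi i - E.starProjection (wi i)‖ ^ 2 ≤ 101 / 1000 := by
    have h1 : ∑ i, w.p i * ‖wi i - E.starProjection (wi i)‖ ^ 2 ≤ w.Hel n * C := by
      unfold Walk.Hel
      rw [Finset.sum_mul]
      refine Finset.sum_le_sum fun i _ => ?_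
      calc w.p i * ‖wi i - E.starProjection (wi i)‖ ^ 2 ≤ w.p i * (w.hel n i * C) :=
            mul_le_mul_of_nonneg_left (hkey i) (w.p_nonneg i)
        _ = _ := by ring
    refine h1.trans ?_
    have h2 : (n : ℝ) * (w.Hel n * C) ≤ n * (101 / 1000) := by
      calc (n : ℝ) * (w.Hel n * C) = (n * w.Hel n) * C := by ring
        _ ≤ d * C := mul_le_mul_of_nonneg_right hHel hC0
        _ = C * d := by ring
        _ ≤ _ := by linarith
    exact le_of_mul_le_mul_left h2 hn0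
  have hsum2 : ∑ i, w.p i * ‖wi i - coc π ξ (w.s i)‖ ^ 2 ≤ 3 / 100 := by
    refine hW.trans ?_
    linarith
  have hsum3 : ∑ i, w.p i * ‖coc π ξ (w.s i) - E.starProjection (coc π ξ (w.s i))‖ ^ 2 ≤
      3 / 10 := by
    have h1 : ∀ i, w.p i * ‖coc π ξ (w.s i) - E.starProjection (coc π ξ (w.s i))‖ ^ 2 ≤
        2 * (w.p i * ‖wi i - E.starProjection (wi i)‖ ^ 2) +
        2 * (w.p i * ‖wi i - coc π ξ (w.s i)‖ ^ 2) := by
      intro i
      have e1 : coc π ξ (w.s i) - E.starProjection (coc π ξ (w.s i)) =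
          (wi i - E.starProjection (wi i)) -
          ((wi i - coc π ξ (w.s i)) - E.starProjection (wi i - coc π ξ (w.s i))) := by
        rw [map_sub E.starProjection (wi i) (coc π ξ (w.s i))]
        generalize E.starProjection (wi i) = z₁
        generalize wi i = z₂
        abel
      have e2 : ‖coc π ξ (w.s i) - E.starProjection (coc π ξ (w.s i))‖ ≤
          ‖wi i - E.starProjection (wi i)‖ + ‖wi i - coc π ξ (w.s i)‖ := by
        rw [e1]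
        refine (norm_sub_le _ _).trans ?_
        have := co_le E (wi i - coc π ξ (w.s i))
        linarith
      have e3 : ‖coc π ξ (w.s i) - E.starProjection (coc π ξ (w.s i))‖ ^ 2 ≤
          2 * ‖wi i - E.starProjection (wi i)‖ ^ 2 + 2 * ‖wi i - coc π ξ (w.s i)‖ ^ 2 := by
        have e4 : ‖coc π ξ (w.s i) - E.starProjection (coc π ξ (w.s i))‖ ^ 2 ≤
            (‖wi i - E.starProjection (wi i)‖ + ‖wi i - coc π ξ (w.s i)‖) ^ 2 := by
          gcongr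
        nlinarith [sq_nonneg (‖wi i - E.starProjection (wi i)‖ - ‖wi i - coc π ξ (w.s i)‖)]
      have := mul_le_mul_of_nonneg_left e3 (w.p_nonneg i)
      linarith
    refine (Finset.sum_le_sum fun i _ => h1 i).trans ?_
    rw [Finset.sum_add_distrib, ← Finset.mul_sum, ← Finset.mul_sum]
    linarith
  have hsplit : ∑ i, w.p i * ‖coc π ξ (w.s i)‖ ^ 2 =
      ∑ i, w.p i * ‖E.starProjection (coc π ξ (w.s i))‖ ^ 2 +
      ∑ i, w.p i * ‖coc π ξ (w.s i) - E.starProjection (coc π ξ (w.s i))‖ ^ 2 := by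
    rw [← Finset.sum_add_distrib]
    refine Finset.sum_congr rfl fun i _ => ?_
    rw [proj_sq E (coc π ξ (w.s i))]
    ring
  rw [m2] at hsplit
  linarith

end Pool.Agent.Helper67.ST
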