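import Pool.Agent.Helper69.ST.GoalsR

/-!
# Pushing poles (packet PP of project ST)

The coordinate function of a compact set `K` with connected complement has the same spectrum in the closure of
the polynomials as in `C(K, ℂ)`.
-/

set_option autoImplicit false

open Set

namespace Pool.Agent.Helper67.ST.PP

open Pool.Agent

theorem t : Helper69.ST.S_PP := by
  intro K hK hKc ζ hζ ε hε
  have : CompactSpace K := isCompact_iff_compactSpace.mp hK
  let A : Subalgebra ℂ C(K, ℂ) := (polynomialFunctions K).topologicalClosure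
  have hA : IsClosed (A : Set C(K, ℂ)) := Subalgebra.isClosed_topologicalClosure _
  let X₀ : C(K, ℂ) := Polynomial.toContinuousMapOnAlgHom K Polynomial.X
  have hX₀ : X₀ ∈ A := Subalgebra.le_topologicalClosure _ ⟨Polynomial.X, trivial, rfl⟩
  have hX₀z : ∀ z : K, X₀ z = z := by
    intro z
    simp [X₀]
  let x : A := ⟨X₀, hX₀⟩
  have hsp : spectrum ℂ (x : C(K, ℂ)) = K := by
    rw [ContinuousMap.spectrum_eq_range]
    ext z
    constructor
    · rintro ⟨y, rfl⟩
      change X₀ y ∈ K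
      rw [hX₀z]
      exact y.2
    · intro hz
      exact ⟨⟨z, hz⟩, hX₀z ⟨z, hz⟩⟩
  have h2 : spectrum ℂ x = K :=
    (Subalgebra.spectrum_eq_of_isPreconnected_compl A x (by rw [hsp]; exact hKc)).trans hsp
  have h3 : ζ ∉ spectrum ℂ x := by rw [h2]; exact hζ
  rw [spectrum.notMem_iff] at h3
  obtain ⟨u, hu⟩ := h3
  have hmul : ((algebraMap ℂ A ζ - x) * (↑u⁻¹ : A) : A) = 1 := by
    rw [← hu, Units.mul_inv]
  have hv : ∀ z : K, ((↑u⁻¹ : A) : C(K, ℂ)) z = (ζ - z)⁻¹ := by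
    intro z
    have h4 := congrArg (fun a : A => (a : C(K, ℂ)) z) hmul
    have h5 : (ζ - z) * ((↑u⁻¹ : A) : C(K, ℂ)) z = 1 := by
      have h6 : ((algebraMap ℂ A ζ : A) : C(K, ℂ)) z = ζ := rfl
      have h7 : ((x : A) : C(K, ℂ)) z = z := hX₀z z
      have h8 : (((algebraMap ℂ A ζ - x) * (↑u⁻¹ : A) : A) : C(K, ℂ)) z =
          (((algebraMap ℂ A ζ : A) : C(K, ℂ)) z - ((x : A) : C(K, ℂ)) z) *
            ((↑u⁻¹ : A) : C(K, ℂ)) z := rfl
      rw [h6, h7] at h8
      rw [← h8]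
      exact h4
    exact eq_inv_of_mul_eq_one_right h5
  have hcl : ((↑u⁻¹ : A) : C(K, ℂ)) ∈ closure (polynomialFunctions K : Set C(K, ℂ)) :=
    (↑u⁻¹ : A).2
  obtain ⟨p, hp, hpd⟩ := Metric.mem_closure_iff.mp hcl ε hε
  obtain ⟨P, -, rfl⟩ := hp
  refine ⟨P, fun z hz => ?_⟩
  have h9 := lt_of_le_of_lt (ContinuousMap.dist_apply_le_dist ⟨z, hz⟩) hpd
  rw [hv, dist_eq_norm] at h9
  exact h9

end Pool.Agent.Helper67.ST.PP
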